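import Pool.Agent.helper48.CG.Spec

set_option autoImplicit false

namespace Pool.Agent.helper48.CG

open Equiv Finset Function Pool.Agent.helper48.PP

theorem FIN_sw {m : ℕ} (p : Perm (Fin m)) (h : 2 ≤ m) : ∃ c : ℕ, 1 ≤ c ∧ ∀ n,
    avCount n p ≤ c ^ n := by
  obtain ⟨k, rfl⟩ : ∃ k, m = k + 2 := ⟨m - 2, by omega⟩
  exact stanley_wilf p

theorem FIN_pc0 {b : ℕ} (y : Perm (Fin (b + 1))) : pc y 0 0 ≤ 1 := by
  classical
  unfold pc
  simp only [Nat.choose_zero_right, Finset.sum_const, smul_eq_mul, mul_one]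
  refine (Finset.card_le_univ _).trans ?_
  simp [Fintype.card_perm]

/-- The gap theorem. -/
theorem FIN (hHG : HG_stmt) (hUP : UP_stmt) (hINS : INS_stmt) (hSUP : SUP_stmt)
    (hWPC : WPC_stmt) (hFEW : FEW_stmt) (hGRW : GRW_stmt) (hMRG : MRG_stmt)
    (hLOW : LOW_stmt) : FIN_stmt := by
  intro a b k x y p hp hlast hle
  obtain ⟨l, rfl⟩ := length_two_le hlast
  obtain ⟨c, hc, hcn⟩ := stanley_wilf p
  obtain ⟨c', hc', hcn'⟩ := FIN_sw (dsum (1 : Perm (Fin 1)) y) (by omega)
  have hτ' : SkewIndec (dsum (1 : Perm (Fin 1)) y) := skewIndec_dsum (by omega) (by omega) _ _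
  set s : ℕ → ℝ := fun m => (avCount m p : ℝ) with hs
  set s' : ℕ → ℝ := fun m => (avCount m (dsum (1 : Perm (Fin 1)) y) : ℝ) with hs'
  have hcR : (1:ℝ) ≤ c := by exact_mod_cast hc
  have hcR' : (1:ℝ) ≤ c' := by exact_mod_cast hc'
  have h1 : ∀ n, 1 ≤ s n := fun n => by
    have := one_le_avCount hp (by omega) n
    simp only [hs]; exact_mod_cast this
  have h2 : ∀ m n, s m * s n ≤ s (m + n) := fun m n => by
    have := avCount_mul hp m n
    simp only [hs]; exact_mod_cast this
  have h3 : ∀ n, s n ≤ (c:ℝ) ^ n := fun n => by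
    simp only [hs]; exact_mod_cast hcn n
  have h1' : ∀ n, 1 ≤ s' n := fun n => by
    have := one_le_avCount hτ' (by omega) n
    simp only [hs']; exact_mod_cast this
  have h2' : ∀ m n, s' m * s' n ≤ s' (m + n) := fun m n => by
    have := avCount_mul hτ' m n
    simp only [hs']; exact_mod_cast this
  have h3' : ∀ n, s' n ≤ (c':ℝ) ^ n := fun n => by
    simp only [hs']; exact_mod_cast hcn' n
  have hav : ∀ n, s' n = ((avs y n).card : ℝ) := fun n => by
    have := (hHG y (1 : Perm (Fin 0))).2.2.2.2.2 n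
    simp only [hs']; exact_mod_cast this
  have ha1 := one_le_rg hcR h1 h3
  have hb1 := one_le_rg hcR' h1' h3'
  set β : ℝ := rg s' with hβ
  have hYpos : 0 < rg s + β := by linarith
  set θ : ℝ := 1 / (rg s + β) ^ 2 with hθ
  have hθ0 : 0 < θ := by positivity
  obtain ⟨hS1, hS2, hS3⟩ := hSUP y θ hθ0.le
  obtain ⟨hW1, hW2⟩ := hWPC y θ hθ0.le
  have hbig : ∃ q, β ^ (2 * q) < wt y θ q := by
    refine hFEW s' (wt y θ) (fun q k => (((avs y q).filter fun v => (corn y v).card ≤ k).card : ℝ))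
      c' θ hcR' hθ0 h1' h2' h3' (fun q k => ?_) (fun q d k => ?_)
    · rw [hav]
      exact hW2 q k
    · rw [hav]
      have := hINS y q d k
      exact_mod_cast this
  have h4 : ∀ n, wt y θ n ≤ ((1 + θ) * c') ^ n := fun n => by
    refine (hS3 n).trans ?_
    rw [mul_pow]
    exact mul_le_mul_of_nonneg_left (h3' n) (by positivity)
  have hc2 : (1:ℝ) ≤ (1 + θ) * c' := by nlinarith
  obtain ⟨M, q, j, hMqj⟩ := hGRW s (wt y θ) (fun q j => (pc y q j : ℝ)) c ((1 + θ) * c') β
    hcR hc2 hb1 h1 h2 h3 hS2 hS1 h4 (fun q j => Nat.cast_nonneg _) (fun q => hW1 q) hbig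
  have hτ : SkewIndec (dsum p y) := skewIndec_dsum (by omega) (by omega) _ _
  by_cases hR : 0 < M + (q + j)
  · refine eventually_gap (Y := rg s + β) (by linarith) M (M + (q + j)) hR hMqj
      (fun n => Nat.cast_nonneg _) (fun n => ?_) (v := fun n =>
        (avCount n (dsum p y) : ℝ)) (fun m n hmn => ?_) (fun K => ?_)
    · have h5 := hUP x y n
      calc (avCount n (dsum (dsum x (1 : Perm (Fin 1))) y) : ℝ) ≤
          ((∑ m ∈ Finset.range (n + 1), n.choose m * n.choose m *
            (avCount m (dsum x (1 : Perm (Fin 1))) *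
              avCount (n - m) (dsum (1 : Perm (Fin 1)) y)) : ℕ) : ℝ) := by exact_mod_cast h5
        _ = ∑ m ∈ Finset.range (n + 1), (n.choose m : ℝ) * n.choose m *
            ((avCount m (dsum x (1 : Perm (Fin 1))) : ℝ) * s' (n - m)) := by push_cast; rfl
        _ ≤ ∑ m ∈ Finset.range (n + 1), (n.choose m : ℝ) * n.choose m * (s m * s' (n - m)) := by
            refine Finset.sum_le_sum fun m _ => ?_
            refine mul_le_mul_of_nonneg_left ?_ (by positivity)
            refine mul_le_mul_of_nonneg_right ?_ (zero_le_one.trans (h1' _))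
            simp only [hs]; exact_mod_cast hle m
        _ ≤ _ := hMRG s s' c c' hcR hcR' h1 h2 h3 h1' h2' h3' n
    · have := avCount_monotone hτ (by omega) hmn
      simp only at this ⊢
      exact_mod_cast this
    · have h7 := hLOW p y hp hlast M q j (one_le_avCount hp (by omega) M) K
      simp only [hs]
      exact_mod_cast h7
  · exfalso
    have hM : M = 0 := by omega
    have hq : q = 0 := by omega
    have hj : j = 0 := by omega
    subst hM hq hj
    have h8 := le_rg_pow hcR h1 h2 h3 0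
    have h9 : (pc y 0 0 : ℝ) ≤ 1 := by exact_mod_cast FIN_pc0 y
    have h10 : (0:ℝ) ≤ (pc y 0 0 : ℝ) := Nat.cast_nonneg _
    simp only [mul_zero, add_zero, pow_zero, Nat.choose_self, Nat.cast_one, one_mul] at hMqj h8
    nlinarith [h1 0]

end Pool.Agent.helper48.CG
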